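import Mathlib

set_option autoImplicit false

open MeasureTheory Set
open scoped ENNReal NNReal

namespace Pool.Agent.X86.GC

/-- geometric sums with monotone coefficients -/
lemma geo_sum (a : ℕ → ℝ≥0∞) (ha : Monotone a) (r : ℝ≥0∞) (hr : r < 1) :
    (1 - r) * ∑' k, a k * r ^ k = ∑' j, (a j - (if j = 0 then 0 else a (j - 1))) * r ^ j := by
  set d : ℕ → ℝ≥0∞ := fun j => a j - (if j = 0 then 0 else a (j - 1)) with hd
  have hsum : ∀ k, a k = ∑ j ∈ Finset.range (k + 1), d j := by
    intro k
    induction k with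
    | zero => simp [hd]
    | succ k ih =>
      rw [Finset.sum_range_succ, ← ih]
      simp only [hd, Nat.succ_ne_zero, if_false, Nat.add_sub_cancel]
      rw [add_tsub_cancel_of_le (ha (Nat.le_succ k))]
  have h1 : ∑' k, a k * r ^ k = ∑' j, d j * r ^ j * (1 - r)⁻¹ := by
    calc ∑' k, a k * r ^ k = ∑' k, ∑' j, (if j ≤ k then d j * r ^ k else 0) := by
          congr 1; funext k
          rw [hsum k, Finset.sum_mul, tsum_eq_sum (s := Finset.range (k + 1))]
          · refine Finset.sum_congr rfl fun j hj => ?_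
            rw [Finset.mem_range] at hj
            rw [if_pos (by omega)]
          · intro j hj
            rw [Finset.mem_range] at hj
            rw [if_neg (by omega)]
      _ = ∑' j, ∑' k, (if j ≤ k then d j * r ^ k else 0) := ENNReal.tsum_comm
      _ = ∑' j, d j * r ^ j * (1 - r)⁻¹ := by
          congr 1; funext j
          have h2 : ∑' k, (if j ≤ k then d j * r ^ k else 0) = ∑' i, d j * r ^ j * r ^ i := by
            have h3 : Function.Injective (fun i : ℕ => i + j) := fun x y h => by simpa using h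
            have h4 := h3.tsum_eq (f := fun k => (if j ≤ k then d j * r ^ k else 0)) (by
              intro k hk
              simp only [Function.mem_support, ne_eq, ite_eq_right_iff, Classical.not_imp] at hk
              exact ⟨k - j, Nat.sub_add_cancel hk.1⟩)
            rw [← h4]
            congr 1; funext i
            rw [if_pos (Nat.le_add_left _ _), pow_add]
            ring
          rw [h2, ENNReal.tsum_mul_left, ENNReal.tsum_geometric]
  rw [h1, ENNReal.tsum_mul_right, mul_comm, mul_assoc,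
    ENNReal.inv_mul_cancel (tsub_pos_of_lt hr).ne' (ENNReal.sub_ne_top ENNReal.one_ne_top), mul_one]

lemma geo_mono (a : ℕ → ℝ≥0∞) (ha : Monotone a) {r u : ℝ≥0∞} (hru : r ≤ u) (hu : u < 1) :
    (1 - r) * ∑' k, a k * r ^ k ≤ (1 - u) * ∑' k, a k * u ^ k := by
  rw [geo_sum a ha r (hru.trans_lt hu), geo_sum a ha u hu]
  refine ENNReal.tsum_le_tsum fun j => ?_
  gcongr

variable {N : ℕ}

/-- dyadic shells -/
def A (N : ℕ) (k : ℤ) : Set (EuclideanSpace ℝ (Fin N)) := {h | (2:ℝ) ^ k ≤ ‖h‖ ∧ ‖h‖ < (2:ℝ) ^ (k + 1)}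

lemma measA (k : ℤ) : MeasurableSet (A N k) := by
  unfold A
  exact (measurableSet_le measurable_const measurable_norm).inter
    (measurableSet_lt measurable_norm measurable_const)

lemma disjA : Pairwise (Function.onFun Disjoint (A N)) := by
  have key : ∀ i j : ℤ, i < j → Disjoint (A N i) (A N j) := by
    intro i j hij
    rw [Set.disjoint_left]
    intro h hi hj
    have h1 : (2:ℝ) ^ (i + 1) ≤ 2 ^ j := zpow_le_zpow_right₀ (by norm_num) (by omega)
    linarith [hi.2, hj.1]
  intro i j hij
  rcases lt_or_gt_of_ne hij with h | h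
  · exact key i j h
  · exact (key j i h).symm

lemma unionA : (⋃ k : ℤ, A N k) = {0}ᶜ := by
  ext h
  simp only [mem_iUnion, mem_compl_iff, mem_singleton_iff]
  constructor
  · rintro ⟨k, hk⟩ rfl
    have := hk.1
    rw [norm_zero] at this
    have h2 : (0:ℝ) < 2 ^ k := by positivity
    linarith
  · intro hh
    obtain ⟨n, hn⟩ := exists_mem_Ico_zpow (norm_pos_iff.mpr hh) (one_lt_two (α := ℝ))
    exact ⟨n, hn⟩

/-- weight `‖h‖^{-a}` -/
noncomputable def wt (N : ℕ) (a : ℝ) (h : EuclideanSpace ℝ (Fin N)) : ℝ≥0∞ :=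
  ENNReal.ofReal (‖h‖ ^ (-a))

lemma meas_wt (a : ℝ) : Measurable (wt N a) := by
  unfold wt
  exact (measurable_norm.pow_const _).ennreal_ofReal

lemma scaling (F : EuclideanSpace ℝ (Fin N) → ℝ≥0∞) (hF : Measurable F) (k : ℤ) :
    ∫⁻ h in A N (k + 1), F h * wt N N h = ∫⁻ h in A N k, F ((2:ℝ) • h) * wt N N h := by
  have h1 : Measure.map ((2:ℝ) • · : EuclideanSpace ℝ (Fin N) → EuclideanSpace ℝ (Fin N)) volume
      = ENNReal.ofReal |((2:ℝ) ^ (Module.finrank ℝ (EuclideanSpace ℝ (Fin N))))⁻¹| • volume :=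
    Measure.map_addHaar_smul volume (by norm_num)
  have hfr : Module.finrank ℝ (EuclideanSpace ℝ (Fin N)) = N := by simp
  rw [hfr] at h1
  have h2 : ∫⁻ h, (A N (k+1)).indicator (fun h => F h * wt N N h) ((2:ℝ) • h) =
      ENNReal.ofReal |((2:ℝ) ^ N)⁻¹| * ∫⁻ h, (A N (k+1)).indicator (fun h => F h * wt N N h) h := by
    rw [← smul_eq_mul, ← lintegral_smul_measure, ← h1, lintegral_map]
    · exact (hF.mul (meas_wt _)).indicator (measA _)
    · exact measurable_const_smul _
  rw [lintegral_indicator (measA _)] at h2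
  have h3 : ∀ h, (A N (k+1)).indicator (fun h => F h * wt N N h) ((2:ℝ) • h) =
      ENNReal.ofReal |((2:ℝ) ^ N)⁻¹| * (A N k).indicator (fun h => F ((2:ℝ) • h) * wt N N h) h := by
    intro h
    have hmem : (2:ℝ) • h ∈ A N (k + 1) ↔ h ∈ A N k := by
      unfold A
      simp only [mem_ofPred_eq, norm_smul, Real.norm_ofNat]
      rw [zpow_add_one₀ (by norm_num : (2:ℝ) ≠ 0) (k+1), zpow_add_one₀ (by norm_num : (2:ℝ) ≠ 0) k]
      constructor
      · rintro ⟨a, b⟩; exact ⟨by linarith, by linarith⟩
      · rintro ⟨a, b⟩; exact ⟨by linarith, by linarith⟩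
    by_cases hh : h ∈ A N k
    · rw [indicator_of_mem (hmem.mpr hh), indicator_of_mem hh]
      have h4 : wt N N ((2:ℝ) • h) = ENNReal.ofReal |((2:ℝ) ^ N)⁻¹| * wt N N h := by
        unfold wt
        rw [← ENNReal.ofReal_mul (abs_nonneg _), norm_smul, Real.norm_ofNat,
          Real.mul_rpow (by norm_num) (norm_nonneg _), abs_of_pos (by positivity),
          Real.rpow_neg (by norm_num), Real.rpow_natCast]
      rw [h4]
      ring
    · rw [indicator_of_notMem (fun h' => hh (hmem.mp h')), indicator_of_notMem hh, mul_zero]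
  simp_rw [h3] at h2
  have hm : Measurable ((A N k).indicator (fun h => F ((2:ℝ) • h) * wt N N h)) :=
    Measurable.indicator (Measurable.mul (hF.comp (measurable_const_smul (2:ℝ))) (meas_wt _)) (measA _)
  rw [lintegral_const_mul _ hm, lintegral_indicator (measA _)] at h2
  have h5 : ENNReal.ofReal |((2:ℝ) ^ N)⁻¹| ≠ 0 := by
    rw [Ne, ENNReal.ofReal_eq_zero, not_le]; positivity
  exact ((ENNReal.mul_right_inj h5 ENNReal.ofReal_ne_top).mp h2).symm

lemma beta_const (k : ℕ) : ∫⁻ h in A N k, wt N N h = ∫⁻ h in A N 0, wt N N h := by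
  induction k with
  | zero => simp
  | succ k ih =>
    have := scaling (N := N) (fun _ => 1) measurable_const k
    simp only [one_mul] at this
    push_cast
    rw [this, ih]

lemma beta_fin : ∫⁻ h in A N 0, wt N N h < ∞ := by
  have h1 : ∫⁻ h in A N 0, wt N N h ≤ ∫⁻ h in A N 0, 1 := by
    apply setLIntegral_mono measurable_const
    intro h hh
    unfold wt
    rw [← ENNReal.ofReal_one]
    apply ENNReal.ofReal_le_ofReal
    have : (1:ℝ) ≤ ‖h‖ := by simpa using hh.1
    apply Real.rpow_le_one_of_one_le_of_nonpos this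
    simp
  refine h1.trans_lt ?_
  rw [setLIntegral_one]
  refine (measure_mono (t := Metric.ball 0 2) ?_).trans_lt measure_ball_lt_top
  intro h hh
  rw [mem_ball_zero_iff]
  simpa using hh.2

end Pool.Agent.X86.GC
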