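import Pool.Agent.X86.GC.Basic

set_option autoImplicit false

open MeasureTheory Set
open scoped ENNReal NNReal

namespace Pool.Agent.X86.GC

variable {N : ℕ}

/-- `ω(h) = ‖f(·+h) - f‖_p^p` -/
noncomputable def om (f : EuclideanSpace ℝ (Fin N) → ℂ) (p : ℝ) (h : EuclideanSpace ℝ (Fin N)) : ℝ≥0∞ :=
  ∫⁻ x, ‖f (x + h) - f x‖ₑ ^ p

/-- the `p`-th power of the Gagliardo seminorm -/
noncomputable def G (f : EuclideanSpace ℝ (Fin N) → ℂ) (p s : ℝ) : ℝ≥0∞ :=
  ∫⁻ x, ∫⁻ y, ‖f x - f y‖ₑ ^ p * wt N (N + s * p) (x - y)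

section
variable {f : EuclideanSpace ℝ (Fin N) → ℂ} (hf : Measurable f) {p : ℝ} (hp : 1 ≤ p)
include hf

lemma meas_diff (p : ℝ) : Measurable (fun z : EuclideanSpace ℝ (Fin N) × EuclideanSpace ℝ (Fin N) =>
    ‖f (z.2 + z.1) - f z.2‖ₑ ^ p) := by
  have h1 : Measurable (fun z : EuclideanSpace ℝ (Fin N) × EuclideanSpace ℝ (Fin N) => f (z.2 + z.1)) :=
    hf.comp (measurable_snd.add measurable_fst)
  have h2 : Measurable (fun z : EuclideanSpace ℝ (Fin N) × EuclideanSpace ℝ (Fin N) => f z.2) :=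
    hf.comp measurable_snd
  exact (h1.sub h2).enorm.pow_const _

lemma meas_om (p : ℝ) : Measurable (om f p) := by
  unfold om
  exact Measurable.lintegral_prod_right' (meas_diff hf p)

lemma meas_tr (h : EuclideanSpace ℝ (Fin N)) : Measurable (fun x => f (x + h)) :=
  hf.comp (measurable_id.add_const h)

include hp

lemma om_two (h : EuclideanSpace ℝ (Fin N)) : om f p ((2:ℝ) • h) ≤ 2 ^ p * om f p h := by
  have hp0 : 0 < p := by linarith
  set u : EuclideanSpace ℝ (Fin N) → ℝ≥0∞ := fun x => ‖f (x + h + h) - f (x + h)‖ₑ with hu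
  set v : EuclideanSpace ℝ (Fin N) → ℝ≥0∞ := fun x => ‖f (x + h) - f x‖ₑ with hv
  have mu : Measurable u := (((meas_tr hf h).comp (measurable_id.add_const h)).sub (meas_tr hf h)).enorm
  have mv : Measurable v := ((meas_tr hf h).sub hf).enorm
  have h1 := ENNReal.lintegral_Lp_add_le (μ := (volume : Measure (EuclideanSpace ℝ (Fin N))))
    mu.aemeasurable mv.aemeasurable hp
  have h2 : ∫⁻ x, u x ^ p = om f p h := by
    unfold om
    exact lintegral_add_right_eq_self (fun x => ‖f (x + h) - f x‖ₑ ^ p) h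
  have h3 : ∫⁻ x, v x ^ p = om f p h := rfl
  rw [h2, h3, ← two_mul] at h1
  have h4 : om f p ((2:ℝ) • h) ≤ ∫⁻ x, (u + v) x ^ p := by
    unfold om
    apply lintegral_mono
    intro x
    simp only [Pi.add_apply]
    apply ENNReal.rpow_le_rpow _ hp0.le
    have e1 : f (x + (2:ℝ) • h) - f x = (f (x + h + h) - f (x + h)) + (f (x + h) - f x) := by
      rw [two_smul, ← add_assoc]; ring
    rw [e1]
    exact enorm_add_le _ _
  refine h4.trans ?_
  have h5 := ENNReal.rpow_le_rpow h1 hp0.le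
  rw [← ENNReal.rpow_mul, one_div_mul_cancel hp0.ne', ENNReal.rpow_one,
    ENNReal.mul_rpow_of_nonneg _ _ hp0.le, ← ENNReal.rpow_mul, one_div_mul_cancel hp0.ne',
    ENNReal.rpow_one] at h5
  exact h5

lemma om_le (h : EuclideanSpace ℝ (Fin N)) : om f p h ≤ 2 ^ p * ∫⁻ x, ‖f x‖ₑ ^ p := by
  have hp0 : 0 < p := by linarith
  set u : EuclideanSpace ℝ (Fin N) → ℝ≥0∞ := fun x => ‖f (x + h)‖ₑ with hu
  set v : EuclideanSpace ℝ (Fin N) → ℝ≥0∞ := fun x => ‖f x‖ₑ with hv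
  have mu : Measurable u := (meas_tr hf h).enorm
  have mv : Measurable v := hf.enorm
  have h1 := ENNReal.lintegral_Lp_add_le (μ := (volume : Measure (EuclideanSpace ℝ (Fin N))))
    mu.aemeasurable mv.aemeasurable hp
  have h2 : ∫⁻ x, u x ^ p = ∫⁻ x, ‖f x‖ₑ ^ p :=
    lintegral_add_right_eq_self (fun x => ‖f x‖ₑ ^ p) h
  have h3 : ∫⁻ x, v x ^ p = ∫⁻ x, ‖f x‖ₑ ^ p := rfl
  rw [h2, h3, ← two_mul] at h1
  have h4 : om f p h ≤ ∫⁻ x, (u + v) x ^ p := by
    unfold om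
    apply lintegral_mono
    intro x
    simp only [Pi.add_apply]
    apply ENNReal.rpow_le_rpow _ hp0.le
    exact enorm_sub_le
  refine h4.trans ?_
  have h5 := ENNReal.rpow_le_rpow h1 hp0.le
  rw [← ENNReal.rpow_mul, one_div_mul_cancel hp0.ne', ENNReal.rpow_one,
    ENNReal.mul_rpow_of_nonneg _ _ hp0.le, ← ENNReal.rpow_mul, one_div_mul_cancel hp0.ne',
    ENNReal.rpow_one] at h5
  exact h5

omit hp in
lemma G_eq (p s : ℝ) : G f p s = ∫⁻ h, om f p h * wt N (N + s * p) h := by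
  unfold G
  have h1 : ∀ x, ∫⁻ y, ‖f x - f y‖ₑ ^ p * wt N (N + s * p) (x - y) =
      ∫⁻ h, ‖f (x + h) - f x‖ₑ ^ p * wt N (N + s * p) h := by
    intro x
    rw [← lintegral_add_left_eq_self (fun y => ‖f x - f y‖ₑ ^ p * wt N (N + s * p) (x - y)) x]
    congr 1; funext h
    have e1 : x - (x + h) = -h := by abel
    have e2 : wt N (N + s * p) (-h) = wt N (N + s * p) h := by unfold wt; rw [norm_neg]
    rw [e1, e2, ← enorm_neg (f x - f (x + h)), neg_sub]
  simp_rw [h1]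
  rw [lintegral_lintegral_swap]
  · congr 1; funext h
    unfold om
    rw [lintegral_mul_const]
    exact ((meas_tr hf h).sub hf).enorm.pow_const _
  · refine Measurable.aemeasurable ?_
    have := (meas_diff hf p).comp measurable_swap
    exact this.mul ((meas_wt _).comp measurable_snd)

omit hp in
lemma G_sum (hN : 1 ≤ N) (p s : ℝ) : G f p s = ∑' k : ℤ, ∫⁻ h in A N k, om f p h * wt N (N + s * p) h := by
  have hne : Nontrivial (EuclideanSpace ℝ (Fin N)) := by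
    have : Nonempty (Fin N) := ⟨⟨0, hN⟩⟩
    infer_instance
  rw [G_eq hf, ← lintegral_iUnion measA disjA, unionA, ← setLIntegral_univ]
  symm
  apply setLIntegral_congr
  rw [ae_eq_univ, compl_compl]
  exact measure_singleton 0

omit hp in
lemma G_split (hN : 1 ≤ N) (p s : ℝ) : G f p s =
    (∑' n : ℕ, ∫⁻ h in A N n, om f p h * wt N (N + s * p) h) +
    ∑' n : ℕ, ∫⁻ h in A N (-((n:ℤ) + 1)), om f p h * wt N (N + s * p) h := by
  rw [G_sum hf hN]
  exact tsum_of_nat_of_neg_add_one ENNReal.summable ENNReal.summable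

end

lemma wt_split {s p : ℝ} {h : EuclideanSpace ℝ (Fin N)} (hh : 0 < ‖h‖) :
    wt N (N + s * p) h = wt N N h * ENNReal.ofReal (‖h‖ ^ (-(s * p))) := by
  unfold wt
  rw [← ENNReal.ofReal_mul (by positivity), ← Real.rpow_add hh]
  congr 2
  ring

lemma wt_up {s p : ℝ} (hsp : 0 ≤ s * p) (k : ℤ) {h : EuclideanSpace ℝ (Fin N)} (hh : h ∈ A N k) :
    wt N (N + s * p) h ≤ ENNReal.ofReal ((2:ℝ) ^ (-(k * (s * p)))) * wt N N h := by
  have h0 : (0:ℝ) < 2 ^ k := by positivity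
  have h1 : 0 < ‖h‖ := lt_of_lt_of_le h0 hh.1
  rw [wt_split h1, mul_comm]
  gcongr
  have h2 : ‖h‖ ^ (-(s * p)) ≤ ((2:ℝ) ^ k) ^ (-(s * p)) :=
    Real.rpow_le_rpow_of_nonpos h0 hh.1 (by linarith)
  refine h2.trans (le_of_eq ?_)
  rw [← Real.rpow_intCast, ← Real.rpow_mul (by norm_num)]
  congr 1; ring

lemma wt_lo {s p : ℝ} (hsp : 0 ≤ s * p) (k : ℤ) {h : EuclideanSpace ℝ (Fin N)} (hh : h ∈ A N k) :
    ENNReal.ofReal ((2:ℝ) ^ (-((k + 1) * (s * p)))) * wt N N h ≤ wt N (N + s * p) h := by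
  have h0 : (0:ℝ) < 2 ^ k := by positivity
  have h1 : 0 < ‖h‖ := lt_of_lt_of_le h0 hh.1
  rw [wt_split h1, mul_comm]
  gcongr
  have h2 : ((2:ℝ) ^ (k+1)) ^ (-(s * p)) ≤ ‖h‖ ^ (-(s * p)) :=
    Real.rpow_le_rpow_of_nonpos h1 hh.2.le (by linarith)
  refine (le_of_eq ?_).trans h2
  rw [← Real.rpow_intCast, ← Real.rpow_mul (by norm_num)]
  congr 1; push_cast; ring

section
variable {f : EuclideanSpace ℝ (Fin N) → ℂ} (hf : Measurable f) {p : ℝ} (hp : 1 ≤ p)

/-- shell masses -/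
noncomputable def b (f : EuclideanSpace ℝ (Fin N) → ℂ) (p : ℝ) (n : ℕ) : ℝ≥0∞ :=
  ∫⁻ h in A N (-((n:ℤ) + 1)), om f p h * wt N N h

noncomputable def aa (f : EuclideanSpace ℝ (Fin N) → ℂ) (p : ℝ) (n : ℕ) : ℝ≥0∞ :=
  ENNReal.ofReal ((2:ℝ) ^ (n * p)) * b f p n

include hf hp

lemma b_step (n : ℕ) : b f p n ≤ 2 ^ p * b f p (n + 1) := by
  unfold b
  have e1 : (-((n:ℤ) + 1)) = -(((n + 1 : ℕ) : ℤ) + 1) + 1 := by push_cast; ring
  rw [e1, scaling _ (meas_om hf p)]
  have hm : Measurable (fun h => om f p h * wt N N h) := (meas_om hf p).mul (meas_wt _)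
  rw [← lintegral_const_mul _ hm]
  apply lintegral_mono
  intro h
  simp only []
  rw [← mul_assoc]
  gcongr
  exact om_two hf hp h

lemma two_rpow (p : ℝ) : (2 : ℝ≥0∞) ^ p = ENNReal.ofReal ((2:ℝ) ^ p) := by
  rw [← ENNReal.ofReal_rpow_of_pos (by norm_num)]
  norm_num

lemma aa_mono : Monotone (aa f p) := by
  apply monotone_nat_of_le_succ
  intro n
  unfold aa
  calc ENNReal.ofReal ((2:ℝ) ^ (n * p)) * b f p n
      ≤ ENNReal.ofReal ((2:ℝ) ^ (n * p)) * (2 ^ p * b f p (n + 1)) := by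
        gcongr; exact b_step hf hp n
    _ = ENNReal.ofReal ((2:ℝ) ^ (((n + 1 : ℕ) : ℝ) * p)) * b f p (n + 1) := by
        rw [two_rpow hf hp, ← mul_assoc, ← ENNReal.ofReal_mul (by positivity),
          ← Real.rpow_add (by norm_num)]
        congr 3
        push_cast; ring

lemma inner_up {s : ℝ} (hs : 0 < s) (n : ℕ) :
    ∫⁻ h in A N (-((n:ℤ) + 1)), om f p h * wt N (N + s * p) h ≤
      ENNReal.ofReal ((2:ℝ) ^ (s * p)) * (aa f p n * ENNReal.ofReal ((2:ℝ) ^ (-((1 - s) * p))) ^ n) := by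
  have hsp : 0 ≤ s * p := by positivity
  have hm : Measurable (fun h => om f p h * wt N N h) := (meas_om hf p).mul (meas_wt _)
  calc ∫⁻ h in A N (-((n:ℤ) + 1)), om f p h * wt N (N + s * p) h
      ≤ ∫⁻ h in A N (-((n:ℤ) + 1)), ENNReal.ofReal ((2:ℝ) ^ (((n:ℝ) + 1) * (s * p))) *
          (om f p h * wt N N h) := by
        apply setLIntegral_mono (measurable_const.mul hm)
        intro h hh
        have h1 := wt_up hsp _ hh
        have e1 : (-(((-((n:ℤ) + 1) : ℤ) : ℝ) * (s * p))) = ((n:ℝ) + 1) * (s * p) := by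
          push_cast; ring
        rw [e1] at h1
        calc om f p h * wt N (N + s * p) h ≤ om f p h *
              (ENNReal.ofReal ((2:ℝ) ^ (((n:ℝ) + 1) * (s * p))) * wt N N h) := by gcongr
          _ = ENNReal.ofReal ((2:ℝ) ^ (((n:ℝ) + 1) * (s * p))) * (om f p h * wt N N h) := by ring
    _ = ENNReal.ofReal ((2:ℝ) ^ (((n:ℝ) + 1) * (s * p))) * b f p n := by
        rw [lintegral_const_mul _ hm]; rfl
    _ = _ := by
        unfold aa
        rw [← ENNReal.ofReal_pow (by positivity)]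
        have e2 : (2:ℝ) ^ (((n:ℝ) + 1) * (s * p)) =
            (2:ℝ) ^ (s * p) * ((2:ℝ) ^ (n * p) * ((2:ℝ) ^ (-((1 - s) * p))) ^ n) := by
          rw [← Real.rpow_natCast, ← Real.rpow_mul (by norm_num), ← Real.rpow_add (by norm_num),
            ← Real.rpow_add (by norm_num)]
          congr 1
          ring
        rw [e2, ENNReal.ofReal_mul (by positivity), ENNReal.ofReal_mul (by positivity)]
        ring

lemma inner_lo {s : ℝ} (hs : 0 < s) (n : ℕ) :
    aa f p n * ENNReal.ofReal ((2:ℝ) ^ (-((1 - s) * p))) ^ n ≤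
    ∫⁻ h in A N (-((n:ℤ) + 1)), om f p h * wt N (N + s * p) h := by
  have hsp : 0 ≤ s * p := by positivity
  have hm : Measurable (fun h => om f p h * wt N N h) := (meas_om hf p).mul (meas_wt _)
  calc _ = ENNReal.ofReal ((2:ℝ) ^ ((n:ℝ) * (s * p))) * b f p n := by
        unfold aa
        rw [← ENNReal.ofReal_pow (by positivity)]
        have e2 : (2:ℝ) ^ ((n:ℝ) * (s * p)) =
            ((2:ℝ) ^ (n * p) * ((2:ℝ) ^ (-((1 - s) * p))) ^ n) := by
          rw [← Real.rpow_natCast, ← Real.rpow_mul (by norm_num), ← Real.rpow_add (by norm_num)]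
          congr 1
          ring
        rw [e2, ENNReal.ofReal_mul (by positivity)]
        ring
    _ = ∫⁻ h in A N (-((n:ℤ) + 1)), ENNReal.ofReal ((2:ℝ) ^ ((n:ℝ) * (s * p))) *
          (om f p h * wt N N h) := by
        rw [lintegral_const_mul _ hm]; rfl
    _ ≤ _ := by
        apply setLIntegral_mono ((meas_om hf p).mul (meas_wt _))
        intro h hh
        have h1 := wt_lo hsp _ hh
        have e1 : (-((((-((n:ℤ) + 1) : ℤ) : ℝ) + 1) * (s * p))) = (n:ℝ) * (s * p) := by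
          push_cast; ring
        rw [e1] at h1
        calc ENNReal.ofReal ((2:ℝ) ^ ((n:ℝ) * (s * p))) * (om f p h * wt N N h) = om f p h *
              (ENNReal.ofReal ((2:ℝ) ^ ((n:ℝ) * (s * p))) * wt N N h) := by ring
          _ ≤ om f p h * wt N (N + s * p) h := by gcongr

lemma outer_up {s : ℝ} (hs : 0 < s) (n : ℕ) :
    ∫⁻ h in A N n, om f p h * wt N (N + s * p) h ≤
      2 ^ p * (∫⁻ x, ‖f x‖ₑ ^ p) * (∫⁻ h in A N 0, wt N N h) *
        ENNReal.ofReal ((2:ℝ) ^ (-(s * p))) ^ n := by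
  have hsp : 0 ≤ s * p := by positivity
  calc ∫⁻ h in A N n, om f p h * wt N (N + s * p) h
      ≤ ∫⁻ h in A N n, (2 ^ p * (∫⁻ x, ‖f x‖ₑ ^ p) * ENNReal.ofReal ((2:ℝ) ^ (-(n * (s * p))))) *
          wt N N h := by
        apply setLIntegral_mono (measurable_const.mul (meas_wt _))
        intro h hh
        have h1 := wt_up hsp _ hh
        have h2 := om_le hf hp h
        rw [Int.cast_natCast] at h1
        calc _ ≤ (2 ^ p * (∫⁻ x, ‖f x‖ₑ ^ p)) *
              (ENNReal.ofReal ((2:ℝ) ^ (-(n * (s * p)))) * wt N N h) := by gcongr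
          _ = (2 ^ p * (∫⁻ x, ‖f x‖ₑ ^ p) * ENNReal.ofReal ((2:ℝ) ^ (-(n * (s * p))))) *
            wt N N h := by ring
    _ = (2 ^ p * (∫⁻ x, ‖f x‖ₑ ^ p) * ENNReal.ofReal ((2:ℝ) ^ (-(n * (s * p))))) *
          ∫⁻ h in A N n, wt N N h := by
        rw [lintegral_const_mul _ (meas_wt _)]
    _ = _ := by
        rw [beta_const, ← ENNReal.ofReal_pow (by positivity)]
        have e2 : (2:ℝ) ^ (-((n:ℝ) * (s * p))) = ((2:ℝ) ^ (-(s * p))) ^ n := by
          rw [← Real.rpow_natCast, ← Real.rpow_mul (by norm_num)]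
          congr 1; ring
        rw [e2]; ring

end

/-- Bernoulli -/
lemma bern {p x : ℝ} (hp : 0 < p) (hx : 0 ≤ x) (hx1 : x ≤ 1) :
    x * (1 - (2:ℝ) ^ (-p)) ≤ 1 - (2:ℝ) ^ (-(x * p)) := by
  have h1 : (-1:ℝ) ≤ (2:ℝ) ^ (-p) - 1 := by
    have : (0:ℝ) < (2:ℝ) ^ (-p) := by positivity
    linarith
  have h2 := rpow_one_add_le_one_add_mul_self h1 hx hx1
  have e1 : (1 + ((2:ℝ) ^ (-p) - 1)) ^ x = (2:ℝ) ^ (-(x * p)) := by
    rw [add_sub_cancel, ← Real.rpow_mul (by norm_num)]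
    congr 1; ring
  rw [e1] at h2
  linarith

lemma expb {y : ℝ} : 1 - (2:ℝ) ^ (-y) ≤ y * Real.log 2 := by
  rw [Real.rpow_def_of_pos (by norm_num)]
  have := Real.add_one_le_exp (Real.log 2 * -y)
  linarith

theorem main {f : EuclideanSpace ℝ (Fin N) → ℂ} (hf : Measurable f) (hN : 1 ≤ N) {p θ : ℝ}
    (hp : 1 ≤ p) (hθ : 0 < θ) {s t : ℝ} (hs : θ < s) (hst : s < t) (ht : t < 1) :
    ENNReal.ofReal (min s (1 - s)) * G f p s ≤
      (2 ^ p * (∫⁻ h in A N 0, wt N N h) * (ENNReal.ofReal (1 - 2 ^ (-p)))⁻¹) * (∫⁻ x, ‖f x‖ₑ ^ p) +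
      ENNReal.ofReal (2 ^ p * p * Real.log 2 / θ / (1 - 2 ^ (-p))) *
        (ENNReal.ofReal (min t (1 - t)) * G f p t) := by
  have hp0 : 0 < p := by linarith
  have hs0 : 0 < s := by linarith
  have ht0 : 0 < t := by linarith
  have hκ : 0 < 1 - (2:ℝ) ^ (-p) := by
    have : (2:ℝ) ^ (-p) < 1 := Real.rpow_lt_one_of_one_lt_of_neg (by norm_num) (by linarith)
    linarith
  rw [G_split hf hN p s, mul_add]
  refine add_le_add ?_ ?_
  · -- outer part
    set r := ENNReal.ofReal ((2:ℝ) ^ (-(s * p))) with hr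
    have h1 : ∑' n : ℕ, ∫⁻ h in A N n, om f p h * wt N (N + s * p) h ≤
        2 ^ p * (∫⁻ x, ‖f x‖ₑ ^ p) * (∫⁻ h in A N 0, wt N N h) * (1 - r)⁻¹ := by
      rw [← ENNReal.tsum_geometric, ← ENNReal.tsum_mul_left]
      exact ENNReal.tsum_le_tsum fun n => outer_up hf hp hs0 n
    have h2 : ENNReal.ofReal (min s (1 - s)) * (1 - r)⁻¹ ≤ (ENNReal.ofReal (1 - 2 ^ (-p)))⁻¹ := by
      have h3 : 1 - r = ENNReal.ofReal (1 - (2:ℝ) ^ (-(s * p))) := by
        rw [hr, ENNReal.ofReal_sub _ (by positivity), ENNReal.ofReal_one]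
      have h4 := bern hp0 hs0.le (by linarith)
      have h5 : 0 < 1 - (2:ℝ) ^ (-(s * p)) := lt_of_lt_of_le (by positivity) h4
      rw [h3, ← ENNReal.ofReal_inv_of_pos h5, ← ENNReal.ofReal_inv_of_pos hκ,
        ← ENNReal.ofReal_mul (by apply le_min <;> linarith)]
      apply ENNReal.ofReal_le_ofReal
      rw [← div_eq_mul_inv, ← one_div, div_le_div_iff₀ h5 hκ, one_mul]
      calc min s (1 - s) * (1 - 2 ^ (-p)) ≤ s * (1 - 2 ^ (-p)) := by
            gcongr; exact min_le_left _ _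
        _ ≤ _ := h4
    calc _ ≤ ENNReal.ofReal (min s (1 - s)) *
          (2 ^ p * (∫⁻ x, ‖f x‖ₑ ^ p) * (∫⁻ h in A N 0, wt N N h) * (1 - r)⁻¹) := by gcongr
      _ = (2 ^ p * (∫⁻ h in A N 0, wt N N h)) * (ENNReal.ofReal (min s (1 - s)) * (1 - r)⁻¹) *
          (∫⁻ x, ‖f x‖ₑ ^ p) := by ring
      _ ≤ _ := by gcongr
  · -- inner part
    set r := ENNReal.ofReal ((2:ℝ) ^ (-((1 - s) * p))) with hr
    set u := ENNReal.ofReal ((2:ℝ) ^ (-((1 - t) * p))) with hu
    have h1 : ∑' n : ℕ, ∫⁻ h in A N (-((n:ℤ) + 1)), om f p h * wt N (N + s * p) h ≤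
        ENNReal.ofReal (2 ^ p) * ∑' n, aa f p n * r ^ n := by
      rw [← ENNReal.tsum_mul_left]
      refine ENNReal.tsum_le_tsum fun n => (inner_up hf hp hs0 n).trans ?_
      gcongr
      · norm_num
      · nlinarith
    have h2 : ∑' n, aa f p n * u ^ n ≤ G f p t := by
      rw [G_split hf hN p t]
      refine le_trans ?_ le_add_self
      exact ENNReal.tsum_le_tsum fun n => inner_lo hf hp ht0 n
    have hru : r ≤ u := by
      apply ENNReal.ofReal_le_ofReal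
      apply Real.rpow_le_rpow_of_exponent_le (by norm_num)
      nlinarith
    have hu1 : u < 1 := by
      rw [hu, ENNReal.ofReal_lt_one]
      apply Real.rpow_lt_one_of_one_lt_of_neg (by norm_num)
      nlinarith
    have h3 := geo_mono (aa f p) (aa_mono hf hp) hru hu1
    have e3 : 1 - r = ENNReal.ofReal (1 - (2:ℝ) ^ (-((1 - s) * p))) := by
      rw [hr, ENNReal.ofReal_sub _ (by positivity), ENNReal.ofReal_one]
    have e4 : 1 - u = ENNReal.ofReal (1 - (2:ℝ) ^ (-((1 - t) * p))) := by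
      rw [hu, ENNReal.ofReal_sub _ (by positivity), ENNReal.ofReal_one]
    have h5 : ENNReal.ofReal (min s (1 - s)) ≤ ENNReal.ofReal (1 - 2 ^ (-p))⁻¹ * (1 - r) := by
      rw [e3, ← ENNReal.ofReal_mul (by positivity)]
      apply ENNReal.ofReal_le_ofReal
      have := bern (p := p) (x := 1 - s) hp0 (by linarith) (by linarith)
      rw [inv_mul_eq_div, le_div_iff₀ hκ]
      calc min s (1 - s) * (1 - 2 ^ (-p)) ≤ (1 - s) * (1 - 2 ^ (-p)) := by
            gcongr; exact min_le_right _ _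
        _ ≤ _ := this
    have h6 : 1 - u ≤ ENNReal.ofReal (p * Real.log 2 / θ) * ENNReal.ofReal (min t (1 - t)) := by
      have hl : 0 < Real.log 2 := Real.log_pos (by norm_num)
      rw [e4, ← ENNReal.ofReal_mul (by positivity)]
      apply ENNReal.ofReal_le_ofReal
      have h7 := expb (y := (1 - t) * p)
      have h8 : (1 - t) ≤ min t (1 - t) / θ := by
        rw [le_div_iff₀ hθ]
        apply le_min <;> nlinarith
      calc _ ≤ (1 - t) * p * Real.log 2 := h7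
        _ ≤ min t (1 - t) / θ * p * Real.log 2 := by gcongr
        _ = _ := by ring
    calc _ ≤ (ENNReal.ofReal (1 - 2 ^ (-p))⁻¹ * (1 - r)) *
          (ENNReal.ofReal (2 ^ p) * ∑' n, aa f p n * r ^ n) := by gcongr
      _ = ENNReal.ofReal (1 - 2 ^ (-p))⁻¹ * ENNReal.ofReal (2 ^ p) *
          ((1 - r) * ∑' n, aa f p n * r ^ n) := by ring
      _ ≤ ENNReal.ofReal (1 - 2 ^ (-p))⁻¹ * ENNReal.ofReal (2 ^ p) *
          ((1 - u) * ∑' n, aa f p n * u ^ n) := by gcongr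
      _ ≤ ENNReal.ofReal (1 - 2 ^ (-p))⁻¹ * ENNReal.ofReal (2 ^ p) *
          ((ENNReal.ofReal (p * Real.log 2 / θ) * ENNReal.ofReal (min t (1 - t))) * G f p t) := by
        gcongr
      _ = (ENNReal.ofReal (1 - 2 ^ (-p))⁻¹ * ENNReal.ofReal (2 ^ p) *
          ENNReal.ofReal (p * Real.log 2 / θ)) * (ENNReal.ofReal (min t (1 - t)) * G f p t) := by ring
      _ = _ := by
        rw [← ENNReal.ofReal_mul (by positivity), ← ENNReal.ofReal_mul (by positivity)]
        congr 2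
        field_simp

end Pool.Agent.X86.GC
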